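import Pool.Agent.Wtb.Main
import Pool.Agent.Wsp.Cel

/-!
# Dumbbells with a bounded number of colours in their neighbourhood (MP_e2a513_co)
-/

set_option autoImplicit false

namespace Wdd

open Wtb

variable {V : Type}

/-- `x` is the end of a walk with `n` edges from `v` through `C` -/
def Rch (G : SimpleGraph V) (C : Set V) (v : V) : ℕ → V → Prop
  | 0, x => x = v
  | n + 1, x => x ∈ C ∧ ∃ y, Rch G C v n y ∧ G.Adj y x

lemma rch_mem {G : SimpleGraph V} {C : Set V} {v : V} {n : ℕ} {x : V} (h : Rch G C v n x) :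
    x ∈ insert v C := by
  cases n with
  | zero => exact Or.inl h
  | succ n => exact Or.inr h.1

/-- the distance from `v` in `G[C ∪ {v}]` -/
lemma layers {G : SimpleGraph V} {C : Set V} {v : V} (hc : Conn G C) (hv : v ∉ C)
    (hu : ∃ u ∈ C, G.Adj v u) : ∃ d : V → ℕ, d v = 0 ∧
      (∀ x ∈ insert v C, ∀ y ∈ insert v C, G.Adj x y → d y ≤ d x + 1) ∧
      ∀ x ∈ C, ∃ y ∈ insert v C, G.Adj y x ∧ d x = d y + 1 := by
  classical
  have hex : ∀ x ∈ insert v C, ∃ n, Rch G C v n x := by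
    have hD : {x | x ∈ C ∧ ∃ n, Rch G C v n x} = C := by
      refine hc _ (fun x hx => hx.1) ?_ ?_
      · obtain ⟨u, hu, hvu⟩ := hu
        exact ⟨u, hu, 1, hu, v, rfl, hvu⟩
      · rintro x ⟨_, n, hn⟩ y hy hxy
        exact ⟨hy, n + 1, hy, x, hn, hxy⟩
    rintro x (hx | hx)
    · exact ⟨0, hx⟩
    · rw [← hD] at hx
      exact hx.2
  obtain ⟨d, hd⟩ : ∃ d : V → ℕ, ∀ x, ∀ h : ∃ n, Rch G C v n x, d x = Nat.find h := by
    refine ⟨fun x => if h : ∃ n, Rch G C v n x then Nat.find h else 0, ?_⟩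
    intro x h
    simp only [h, dif_pos]
  have hd1 : ∀ x ∈ insert v C, Rch G C v (d x) x := by
    intro x hx
    rw [hd x (hex x hx)]
    exact Nat.find_spec (hex x hx)
  have hd2 : ∀ x n, Rch G C v n x → d x ≤ n := by
    intro x n h
    rw [hd x ⟨n, h⟩]
    exact Nat.find_min' _ h
  have hb : ∀ x ∈ insert v C, ∀ y ∈ insert v C, G.Adj x y → d y ≤ d x + 1 := by
    rintro x hx y (hy | hy) hxy
    · have h1 := hd2 y 0 hy
      omega
    · exact hd2 y (d x + 1) ⟨hy, x, hd1 x hx, hxy⟩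
  refine ⟨d, Nat.le_zero.1 (hd2 v 0 rfl), hb, ?_⟩
  intro x hx
  have h1 := hd1 x (Or.inr hx)
  obtain ⟨m, hm⟩ : ∃ m, m = d x := ⟨_, rfl⟩
  rw [← hm] at h1
  cases m with
  | zero =>
    have h2 : x = v := h1
    rw [h2] at hx
    exact absurd hx hv
  | succ m =>
    obtain ⟨_, y, hy, hyx⟩ := h1
    have hyC := rch_mem hy
    have h3 := hd2 y m hy
    have h4 := hb y hyC x (Or.inr hx) hyx
    exact ⟨y, hyC, hyx, by omega⟩

/-- shortest path to a vertex at distance `n` -/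
lemma geo {G : SimpleGraph V} {C : Set V} {v : V} {d : V → ℕ} (h0 : d v = 0)
    (h2 : ∀ x ∈ C, ∃ y ∈ insert v C, G.Adj y x ∧ d x = d y + 1) (n : ℕ) :
    ∀ t ∈ insert v C, d t = n → ∃ p : ℕ → V, p 0 = v ∧ p n = t ∧
      (∀ i ≤ n, p i ∈ insert v C ∧ d (p i) = i) ∧ ∀ i < n, G.Adj (p i) (p (i + 1)) := by
  classical
  induction n with
  | zero =>
    rintro t (ht | ht) hd
    · refine ⟨fun _ => v, rfl, ht.symm, ?_, fun i hi => absurd hi (by omega)⟩
      intro i hi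
      exact ⟨Or.inl rfl, by rw [h0]; omega⟩
    · obtain ⟨y, _, _, h3⟩ := h2 t ht
      omega
  | succ n ih =>
    rintro t (ht | ht) hd
    · rw [ht, h0] at hd
      omega
    · obtain ⟨y, hy, hyt, h3⟩ := h2 t ht
      obtain ⟨p, p0, pn, p1, p2⟩ := ih y hy (by omega)
      refine ⟨fun i => if i ≤ n then p i else t, ?_, ?_, ?_, ?_⟩
      · simp only [Nat.zero_le, if_true]
        exact p0
      · exact if_neg (by omega)
      · intro i hi
        by_cases hin : i ≤ n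
        · simp only [hin, if_true]
          exact p1 i hin
        · simp only [hin, if_false]
          exact ⟨Or.inr ht, by omega⟩
      · intro i hi
        by_cases hin : i + 1 ≤ n
        · simp only [hin, if_true, show i ≤ n by omega]
          exact p2 i (by omega)
        · have hi' : i = n := by omega
          subst hi'
          simp only [le_refl, if_true, show ¬ i + 1 ≤ i by omega, if_false]
          rw [pn]
          exact hyt

/-- the neighbourhood of a shortest path has few colours -/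
lemma geo_col {G : SimpleGraph V} {C : Set V} {v : V} {d : V → ℕ} {c1 : ℕ}
    (h1 : ∀ v, Col G {x | G.Adj v x} c1)
    (h : ∀ x ∈ insert v C, ∀ y ∈ insert v C, G.Adj x y → d y ≤ d x + 1) {n : ℕ} {p : ℕ → V}
    (hp : ∀ i ≤ n, p i ∈ insert v C ∧ d (p i) = i) :
    Col G {x | x ∈ C ∧ ∃ i ≤ n, G.Adj (p i) x} (4 * c1) := by
  classical
  obtain ⟨ι, hι⟩ : ∃ ι : V → ℕ, ∀ x, (∃ i ≤ n, G.Adj (p i) x) → ι x ≤ n ∧ G.Adj (p (ι x)) x := by
    refine ⟨fun x => if h : ∃ i ≤ n, G.Adj (p i) x then h.choose else 0, ?_⟩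
    intro x hx
    simp only [hx, dif_pos]
    exact hx.choose_spec
  refine Wsp.fib (fun x => ι x % 4) (fun x _ => Nat.mod_lt _ (by omega)) ?_
  intro r _
  choose g hg1 hg2 using h1
  refine ⟨fun x => g (p (ι x)) x, ?_, ?_⟩
  · rintro x ⟨⟨_, hx⟩, _⟩
    exact hg1 _ x (hι x hx).2
  · rintro x ⟨⟨hxC, hx⟩, hxr⟩ y ⟨⟨hyC, hy⟩, hyr⟩ hxy
    obtain ⟨a1, a2⟩ := hι x hx
    obtain ⟨b1, b2⟩ := hι y hy
    have e1 := hp _ a1
    have e2 := hp _ b1
    have f1 := h _ e1.1 x (Or.inr hxC) a2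
    have f2 := h x (Or.inr hxC) _ e1.1 a2.symm
    have f3 := h _ e2.1 y (Or.inr hyC) b2
    have f4 := h y (Or.inr hyC) _ e2.1 b2.symm
    have f5 := h x (Or.inr hxC) y (Or.inr hyC) hxy
    have f6 := h y (Or.inr hyC) x (Or.inr hxC) hxy.symm
    have hxr' : ι x % 4 = r := hxr
    have hyr' : ι y % 4 = r := hyr
    have he : ι x = ι y := by
      rw [e1.2] at f1 f2
      rw [e2.2] at f3 f4
      omega
    change g (p (ι x)) x ≠ g (p (ι y)) y
    rw [← he] at b2 ⊢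
    exact hg2 _ x a2 y b2 hxy

/-- the colours of the neighbourhood of the image of `K_{s+1,s+1}` -/
lemma kb_col {G : SimpleGraph V} {s c1 : ℕ} (h1 : ∀ v, Col G {x | G.Adj v x} c1) (f : Kb s ↪g G) :
    Col G {x | ∃ y, x = f y ∨ G.Adj (f y) x} ((2 * s + 2) * (1 + c1)) := by
  classical
  obtain ⟨F, hF⟩ : ∃ F : Finset V, F = Finset.univ.image f := ⟨_, rfl⟩
  have hFc : F.card ≤ 2 * s + 2 := by
    rw [hF]
    refine Finset.card_image_le.trans ?_
    simp only [Finset.card_univ, Fintype.card_sum, Fintype.card_fin]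
    omega
  have hN : Col G {x | ∃ i ∈ F, x ∈ {x | x = i ∨ G.Adj i x}} (F.card * (1 + c1)) := by
    refine Col.biUnion F _ (fun i _ => ?_)
    exact ((Col.singleton G i).union (h1 i)).mono (fun x hx => hx) le_rfl
  refine hN.mono ?_ (Nat.mul_le_mul_right _ hFc)
  rintro x ⟨y, hy⟩
  refine ⟨f y, ?_, hy⟩
  rw [hF]
  exact Finset.mem_image_of_mem _ (Finset.mem_univ y)

/-- a pendant path at a biclique inside `D ⊆ C`, and a set `R ⊆ C` without `k`-colouring and without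
neighbours in it -/
def PR (G : SimpleGraph V) (s n k : ℕ) (v : V) (C : Set V) : Prop :=
  ∃ D ⊆ C, ∃ R ⊆ C, PB G s n v D ∧ ¬ Col G R k ∧
    ∀ x ∈ R, x ∉ D ∧ ¬ G.Adj v x ∧ ∀ y ∈ D, ¬ G.Adj y x

lemma PR.step {G : SimpleGraph V} {s n k : ℕ} {v u : V} {C C' : Set V} (h : PR G s n k u C')
    (hu : u ∈ C) (huC' : u ∉ C') (hvu : G.Adj v u) (hv : v ∉ C) (hC : C' ⊆ C)
    (hvC : ∀ x ∈ C', ¬ G.Adj v x) : PR G s (n + 1) k v C := by
  obtain ⟨D, hD, R, hR, hP, hRk, hx⟩ := h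
  have hDi : insert u D ⊆ C := by
    rintro x (hx | hx)
    · rw [hx]
      exact hu
    · exact hC (hD hx)
  refine ⟨insert u D, hDi, R, hR.trans hC, ?_, hRk, ?_⟩
  · exact hP.step (Or.inl rfl) hvu (fun h => hv (hDi h)) (fun x hx => Or.inr hx)
      (fun x hx => hvC x (hD hx))
  · intro x hxR
    obtain ⟨a1, a2, a3⟩ := hx x hxR
    refine ⟨?_, hvC x (hR hxR), ?_⟩
    · rintro (h | h)
      · exact huC' (h ▸ hR hxR)
      · exact a1 h
    · rintro y (hy | hy)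
      · rw [hy]
        exact a2
      · exact a3 y hy

/-- ROOTED LEMMA with a shortest path -/
lemma rootg {G : SimpleGraph V} (hG : ¬ Whl.HasWheel G) {s c1 k : ℕ}
    (h1 : ∀ v, Col G {x | G.Adj v x} c1) {v : V} {C : Set V} (hc : Conn G C) (hv : v ∉ C)
    (hu : ∃ u ∈ C, G.Adj v u) {A B : Finset V} (hq : Bq G A B) (hA : 2 * s + 2 ≤ A.card)
    (hB : 2 * s + 2 ≤ B.card) (hAC : ∀ x ∈ A, x ∈ C) (hBC : ∀ x ∈ B, x ∈ C)
    (hvn : ∀ x, x ∈ A ∨ x ∈ B → ¬ G.Adj v x)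
    (hCk : ¬ Col G C (4 * c1 + (2 * s + 2) * (1 + c1) + k)) : ∃ n, PR G s n k v C := by
  classical
  obtain ⟨d, d0, d1, d2⟩ := layers hc hv hu
  obtain ⟨a0, ha0⟩ := Finset.card_pos.1 (by omega : 0 < A.card)
  obtain ⟨b0, hb0⟩ := Finset.card_pos.1 (by omega : 0 < B.card)
  -- the nearest vertex with a neighbour in the biclique
  have hT : ∃ n, ∃ t ∈ insert v C, (∃ x, (x ∈ A ∨ x ∈ B) ∧ G.Adj t x) ∧ d t = n :=
    ⟨d a0, a0, Or.inr (hAC a0 ha0), ⟨b0, Or.inr hb0, hq.c a0 ha0 b0 hb0⟩, rfl⟩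
  obtain ⟨N, hN⟩ : ∃ N, N = Nat.find hT := ⟨_, rfl⟩
  obtain ⟨t, ht, htx, htd⟩ := Nat.find_spec hT
  rw [← hN] at htd
  have hmin : ∀ y ∈ insert v C, d y < N → ∀ x, (x ∈ A ∨ x ∈ B) → ¬ G.Adj y x := by
    intro y hy hyN x hx hyx
    rw [hN] at hyN
    exact Nat.find_min hT hyN ⟨y, hy, ⟨x, hx, hyx⟩, rfl⟩
  have htC : t ∈ C := by
    rcases ht with h | h
    · obtain ⟨x, hx, hx'⟩ := htx
      rw [h] at hx'
      exact absurd hx' (hvn x hx)
    · exact h
  have hN1 : 1 ≤ N := by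
    obtain ⟨y, _, _, h3⟩ := d2 t htC
    omega
  obtain ⟨p, p0, pN, p1, p2⟩ := geo d0 d2 N t (Or.inr htC) htd
  have hpC : ∀ i, 1 ≤ i → i ≤ N → p i ∈ C := by
    intro i hi hiN
    obtain ⟨h3, h4⟩ := p1 i hiN
    rcases h3 with h | h
    · rw [h, d0] at h4
      omega
    · exact h
  have hind : ∀ i j, i < j → j ≤ N → p i ≠ p j ∧ (G.Adj (p i) (p j) ↔ j = i + 1) := by
    intro i j hij hj
    obtain ⟨a1, a2⟩ := p1 i (by omega)
    obtain ⟨b1, b2⟩ := p1 j hj
    refine ⟨fun h => ?_, fun h => ?_, fun h => ?_⟩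
    · rw [h, b2] at a2
      omega
    · have := d1 _ a1 _ b1 h
      omega
    · rw [h]
      exact p2 i (by omega)
  have hcolP := geo_col h1 d1 p1
  -- the vertices of the path off the biclique have no neighbour in it
  have hfar : ∀ i < N, ∀ x, (x ∈ A ∨ x ∈ B) → p i ≠ x ∧ ¬ G.Adj (p i) x := by
    intro i hi x hx
    obtain ⟨a1, a2⟩ := p1 i (by omega)
    refine ⟨?_, hmin _ a1 (by omega) x hx⟩
    intro h
    rcases hx with hx | hx
    · refine hmin _ a1 (by omega) b0 (Or.inr hb0) ?_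
      rw [h]
      exact hq.c x hx b0 hb0
    · refine hmin _ a1 (by omega) a0 (Or.inl ha0) ?_
      rw [h]
      exact (hq.c a0 ha0 x hx).symm
  have htA : t ∉ A ∧ t ∉ B := by
    have h3 := p1 (N - 1) (by omega)
    have h4 := p2 (N - 1) (by omega)
    rw [show N - 1 + 1 = N by omega, pN] at h4
    have h5 := hfar (N - 1) (by omega)
    exact ⟨fun h => (h5 t (Or.inl h)).2 h4, fun h => (h5 t (Or.inr h)).2 h4⟩
  have fin : ∀ (n : ℕ) (f : Kb s ↪g G), n ≤ N → (∀ x, f x ∈ C) →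
      (∀ i ≤ n, ∀ x, p i ≠ f x ∧ (G.Adj (p i) (f x) ↔ i = n ∧ x = Sum.inl 0)) →
      PR G s n k v C := by
    intro n f hn hf hpf
    refine ⟨{x | (∃ i, 1 ≤ i ∧ i ≤ n ∧ x = p i) ∨ ∃ y, x = f y}, ?_,
      {x | x ∈ C ∧ ¬ (∃ i ≤ N, G.Adj (p i) x) ∧ ¬ ∃ y, x = f y ∨ G.Adj (f y) x},
      fun x hx => hx.1, ?_, ?_, ?_⟩
    · rintro x (⟨i, hi, hin, rfl⟩ | ⟨y, rfl⟩)
      · exact hpC i hi (by omega)
      · exact hf y
    · exact ⟨p, f, p0, fun i hi hin => Or.inl ⟨i, hi, hin, rfl⟩, fun x => Or.inr ⟨x, rfl⟩,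
        fun i j hij hj => hind i j hij (by omega), hpf⟩
    · intro h
      refine hCk (((hcolP.union (kb_col h1 f)).union h).mono ?_ le_rfl)
      intro x hx
      by_cases e1 : ∃ i ≤ N, G.Adj (p i) x
      · exact Or.inl (Or.inl ⟨hx, e1⟩)
      · by_cases e2 : ∃ y, x = f y ∨ G.Adj (f y) x
        · exact Or.inl (Or.inr e2)
        · exact Or.inr ⟨hx, e1, e2⟩
    · rintro x ⟨hxC, e1, e2⟩
      push Not at e1 e2
      refine ⟨?_, ?_, ?_⟩
      · rintro (⟨i, hi, hin, rfl⟩ | ⟨y, hy⟩)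
        · refine e1 (i - 1) (by omega) ?_
          have h4 := p2 (i - 1) (by omega)
          rwa [show i - 1 + 1 = i by omega] at h4
        · exact (e2 y).1 hy
      · have := e1 0 (Nat.zero_le _)
        rwa [p0] at this
      · rintro y (⟨i, hi, hin, rfl⟩ | ⟨y, rfl⟩)
        · exact e1 i (by omega)
        · exact (e2 y).2
  have htx' : ∃ x, (x ∈ A ∨ x ∈ B) ∧ G.Adj t x := htx
  rcases klem2 (s := s) hG hq hA hB htA.1 htA.2 htx' with ⟨f, f1, f2⟩ | ⟨f, f1, f2⟩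
  · refine ⟨N, fin N f le_rfl ?_ ?_⟩
    · intro x
      rcases f1 x with h | h
      · exact hAC _ h
      · exact hBC _ h
    · intro i hi x
      by_cases hiN : i = N
      · rw [hiN, pN, f2 x]
        refine ⟨fun h => ?_, fun h => ⟨rfl, h⟩, fun h => h.2⟩
        rcases f1 x with h' | h'
        · exact htA.1 (h ▸ h')
        · exact htA.2 (h ▸ h')
      · obtain ⟨a1, a2⟩ := hfar i (by omega) _ (f1 x)
        exact ⟨a1, fun h => absurd h a2, fun h => absurd h.1 hiN⟩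
  · refine ⟨N - 1, fin (N - 1) f (by omega) ?_ ?_⟩
    · intro x
      by_cases hx : x = Sum.inl 0
      · rw [hx, f2]
        exact htC
      · rcases f1 x hx with h | h
        · exact hAC _ h
        · exact hBC _ h
    · intro i hi x
      by_cases hx : x = Sum.inl 0
      · rw [hx, f2, ← pN]
        obtain ⟨a1, a2⟩ := hind i N (by omega) le_rfl
        refine ⟨a1, ?_⟩
        rw [a2]
        constructor
        · intro h
          exact ⟨by omega, rfl⟩
        · intro h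
          omega
      · obtain ⟨a1, a2⟩ := hfar i (by omega) _ (f1 x hx)
        exact ⟨a1, fun h => absurd h a2, fun h => absurd h.2 hx⟩

end Wdd
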