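import Pool.Agent.Wdd.Geo

/-!
# Wheel-free graphs without `m` pairwise anticomplete dumbbells (MP_e2a513_co)
-/

set_option autoImplicit false

namespace Wdd

open Wtb

variable {V : Type}

/-- LONG ROOTED LEMMA -/
lemma rootr [Finite V] {G : SimpleGraph V} (hG : ¬ Whl.HasWheel G) {s c0 c1 k : ℕ}
    (h0 : HB G (2 * s + 2) c0) (h1 : ∀ v, Col G {x | G.Adj v x} c1) (l : ℕ) :
    ∀ (v : V) (C : Set V), Conn G C → v ∉ C → (∃ u ∈ C, G.Adj v u) →
      ¬ Col G C (c0 + (4 * c1 + (2 * s + 2) * (1 + c1) + k) + (l + 1) * c1) →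
      ∃ n, l ≤ n ∧ PR G s n k v C := by
  induction l with
  | zero =>
    intro v C hc hv hu h
    rw [Nat.zero_add, Nat.one_mul] at h
    obtain ⟨C1, a1, a2, a3, a4, _⟩ := gstep hc hu (h1 v) h
    obtain ⟨A, B, hq, hA, hB, hAC, hBC⟩ := h0 C1 (fun h => a3 (h.mono le_rfl (by omega)))
    obtain ⟨n, hn⟩ := rootg (s := s) (k := k) hG h1 hc hv hu hq hA hB
      (fun x hx => a1 (hAC x hx)) (fun x hx => a1 (hBC x hx)) (by
        rintro x (hx | hx)
        · exact a4 x (hAC x hx)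
        · exact a4 x (hBC x hx)) (fun h => a3 (h.mono a1 (by omega)))
    exact ⟨n, Nat.zero_le n, hn⟩
  | succ l ih =>
    intro v C hc hv hu h
    have he : c0 + (4 * c1 + (2 * s + 2) * (1 + c1) + k) + (l + 1 + 1) * c1 =
        c0 + (4 * c1 + (2 * s + 2) * (1 + c1) + k) + (l + 1) * c1 + c1 := by ring
    rw [he] at h
    obtain ⟨C1, a1, a2, a3, a4, u, b1, b2, b3, b4⟩ := gstep hc hu (h1 v) h
    obtain ⟨n, hn, hP⟩ := ih u C1 a2 b3 b4 a3
    exact ⟨n + 1, by omega, hP.step b1 b3 b2 hv a1 a4⟩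

/-- a dumbbell inside `D` and a set `R` with many colours without neighbours in `D` -/
lemma dumr [Finite V] {G : SimpleGraph V} (hG : ¬ Whl.HasWheel G) {s c0 c1 k : ℕ}
    (h0 : HB G (2 * s + 2) c0) (h1 : ∀ v, Col G {x | G.Adj v x} c1) (l : ℕ) {W : Set V}
    (hc : Conn G W) (hW : ¬ Col G W (c0 + (4 * c1 + (2 * s + 2) * (1 + c1) + k) + (l + 2) * c1 +
      (4 * s + 4) * c1)) :
    ∃ n, l ≤ n ∧ ∃ D ⊆ W, ∃ R ⊆ W, DB G s n D ∧ ¬ Col G R k ∧
      ∀ x ∈ R, ∀ y ∈ D, x ≠ y ∧ ¬ G.Adj y x := by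
  classical
  obtain ⟨K, hKdef⟩ : ∃ K, K = c0 + (4 * c1 + (2 * s + 2) * (1 + c1) + k) := ⟨_, rfl⟩
  rw [← hKdef] at hW
  obtain ⟨A', B', hq', hA', hB', hAW', hBW'⟩ := h0 W (fun h => hW (h.mono le_rfl (by omega)))
  obtain ⟨A, hAA, hA⟩ := Finset.exists_subset_card_eq hA'
  obtain ⟨B, hBB, hB⟩ := Finset.exists_subset_card_eq hB'
  have hq : Bq G A B := ⟨fun x hx y hy => hq'.l x (hAA hx) y (hAA hy),
    fun x hx y hy => hq'.r x (hBB hx) y (hBB hy), fun x hx y hy => hq'.c x (hAA hx) y (hBB hy)⟩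
  have hAW : ∀ x ∈ A, x ∈ W := fun x hx => hAW' x (hAA hx)
  have hBW : ∀ x ∈ B, x ∈ W := fun x hx => hBW' x (hBB hx)
  obtain ⟨a0, ha0⟩ := Finset.card_pos.1 (by omega : 0 < A.card)
  obtain ⟨b0, hb0⟩ := Finset.card_pos.1 (by omega : 0 < B.card)
  have hNA : Col G {x | ∃ i ∈ A, x ∈ {x | G.Adj i x}} (A.card * c1) :=
    Col.biUnion A _ (fun i _ => h1 i)
  have hNB : Col G {x | ∃ i ∈ B, x ∈ {x | G.Adj i x}} (B.card * c1) :=
    Col.biUnion B _ (fun i _ => h1 i)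
  have hS : ¬ Col G {x | x ∈ W ∧ ∀ i, i ∈ A ∨ i ∈ B → ¬ G.Adj i x} (K + (l + 2) * c1) := by
    intro h
    refine hW ((h.union (hNA.union hNB)).mono ?_ ?_)
    · intro x hx
      by_cases hx' : ∀ i, i ∈ A ∨ i ∈ B → ¬ G.Adj i x
      · exact Or.inl ⟨hx, hx'⟩
      · push Not at hx'
        obtain ⟨i, hi | hi, hix⟩ := hx'
        · exact Or.inr (Or.inl ⟨i, hi, hix⟩)
        · exact Or.inr (Or.inr ⟨i, hi, hix⟩)
    · rw [hA, hB]
      have : (4 * s + 4) * c1 = (2 * s + 2) * c1 + (2 * s + 2) * c1 := by ring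
      omega
  obtain ⟨R, r1, r2, r3, r4⟩ := comp_col hS
  have hRW : R ⊆ W := fun x hx => (r1 hx).1
  have hanti : ∀ y ∈ R, ∀ i, i ∈ A ∨ i ∈ B → ¬ G.Adj y i := fun y hy i hi h =>
    (r1 hy).2 i hi h.symm
  have hdis : ∀ y ∈ R, y ∉ A ∧ y ∉ B := by
    intro y hy
    refine ⟨fun h => hanti y hy b0 (Or.inr hb0) (hq.c y h b0 hb0), fun h =>
      hanti y hy a0 (Or.inl ha0) (hq.c a0 ha0 y h).symm⟩
  have hne : R.Nonempty := by
    rw [Set.nonempty_iff_ne_empty]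
    intro h
    rw [h] at r3
    exact r3 (Col.empty G _)
  obtain ⟨y, hy, z, hz, hzR, hyz⟩ := hc.exit hRW hne ⟨a0, hAW a0 ha0, fun h => (hdis a0 h).1 ha0⟩
  have hzA : z ∉ A := fun h => hanti y hy z (Or.inl h) hyz
  have hzB : z ∉ B := fun h => hanti y hy z (Or.inr h) hyz
  have hex : ∃ x, (x ∈ A ∨ x ∈ B) ∧ G.Adj z x := by
    by_contra h
    push Not at h
    exact hzR (r4 y hy z ⟨hz, fun i hi hiz => h i hi hiz.symm⟩ hyz)
  -- assembling the dumbbell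
  have fin : ∀ (n : ℕ) (f : Kb s ↪g G) (u : V) (C : Set V), l ≤ n → (∀ x, f x ∈ W) → u ∈ W →
      C ⊆ W → u ∉ C → (∀ x, u ≠ f x ∧ (G.Adj u (f x) ↔ x = Sum.inl 0)) →
      (∀ y ∈ C, ∀ x, y ≠ f x ∧ ¬ G.Adj y (f x)) → PR G s n k u C →
      ∃ n, l ≤ n ∧ ∃ D ⊆ W, ∃ R ⊆ W, DB G s n D ∧ ¬ Col G R k ∧
        ∀ x ∈ R, ∀ y ∈ D, x ≠ y ∧ ¬ G.Adj y x := by
    rintro n f u C hn hf hu hC huC h3 h4 ⟨D, hD, R', hR', hP, hRk, hx⟩
    refine ⟨n, hn, {x | (∃ y, x = f y) ∨ x = u ∨ x ∈ D}, ?_, R', hR'.trans hC, ?_, hRk, ?_⟩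
    · rintro x (⟨y, rfl⟩ | rfl | hx)
      · exact hf y
      · exact hu
      · exact hC (hD hx)
    · exact ⟨f, u, D, fun x => Or.inl ⟨x, rfl⟩, Or.inr (Or.inl rfl), fun x hx => Or.inr (Or.inr hx),
        h3, fun y hy => h4 y (hD hy), hP⟩
    · intro x hxR
      obtain ⟨a1, a2, a3⟩ := hx x hxR
      rintro y (⟨y', rfl⟩ | rfl | hy)
      · obtain ⟨e1, e2⟩ := h4 x (hR' hxR) y'
        exact ⟨e1, fun h => e2 h.symm⟩
      · exact ⟨fun h => huC (h ▸ hR' hxR), a2⟩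
      · exact ⟨fun h => a1 (h ▸ hy), a3 y hy⟩
  rcases klem2 (s := s) hG hq (by omega) (by omega) hzA hzB hex with ⟨f, f1, f2⟩ | ⟨f, f1, f2⟩
  · obtain ⟨n, hn, hP⟩ := rootr (s := s) (k := k) hG h0 h1 l z R r2 hzR ⟨y, hy, hyz.symm⟩
      (fun h => r3 (h.mono le_rfl (by
        have : (l + 2) * c1 = (l + 1) * c1 + c1 := by ring
        omega)))
    refine fin n f z R hn ?_ hz hRW hzR ?_ ?_ hP
    · intro x
      rcases f1 x with h | h
      · exact hAW _ h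
      · exact hBW _ h
    · intro x
      refine ⟨?_, f2 x⟩
      intro h
      rcases f1 x with h' | h'
      · exact hzA (h ▸ h')
      · exact hzB (h ▸ h')
    · intro w hw x
      refine ⟨?_, hanti w hw _ (f1 x)⟩
      intro h
      rcases f1 x with h' | h'
      · exact (hdis w hw).1 (h ▸ h')
      · exact (hdis w hw).2 (h ▸ h')
  · have he : K + (l + 2) * c1 = K + (l + 1) * c1 + c1 := by ring
    rw [he] at r3
    obtain ⟨R1, a1, a2, a3, a4, u, b1, b2, b3, b4⟩ := gstep r2 ⟨y, hy, hyz.symm⟩ (h1 z) r3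
    rw [hKdef] at a3
    obtain ⟨n, hn, hP⟩ := rootr (s := s) (k := k) hG h0 h1 l u R1 a2 b3 b4 a3
    refine fin n f u R1 hn ?_ (hRW b1) (a1.trans hRW) b3 ?_ ?_ hP
    · intro x
      by_cases hx : x = Sum.inl 0
      · rw [hx, f2]
        exact hz
      · rcases f1 x hx with h | h
        · exact hAW _ h
        · exact hBW _ h
    · intro x
      by_cases hx : x = Sum.inl 0
      · rw [hx, f2]
        exact ⟨b2.ne.symm, fun _ => rfl, fun _ => b2.symm⟩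
      · refine ⟨?_, fun h => absurd h (hanti u b1 _ (f1 x hx)), fun h => absurd h hx⟩
        intro h
        rcases f1 x hx with h' | h'
        · exact (hdis u b1).1 (h ▸ h')
        · exact (hdis u b1).2 (h ▸ h')
    · intro w hw x
      by_cases hx : x = Sum.inl 0
      · rw [hx, f2]
        refine ⟨?_, fun h => a4 w hw h.symm⟩
        intro h
        exact hzR (h ▸ a1 hw)
      · refine ⟨?_, hanti w (a1 hw) _ (f1 x hx)⟩
        intro h
        rcases f1 x hx with h' | h'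
        · exact (hdis w (a1 hw)).1 (h ▸ h')
        · exact (hdis w (a1 hw)).2 (h ▸ h')

/-- `m` pairwise anticomplete dumbbells inside `W` -/
lemma confm [Finite V] {G : SimpleGraph V} (hG : ¬ Whl.HasWheel G) {s c0 c1 : ℕ}
    (h0 : HB G (2 * s + 2) c0) (h1 : ∀ v, Col G {x | G.Adj v x} c1) (l : ℕ) (m : ℕ) :
    ∀ W : Set V, ¬ Col G W (m * (c0 + (4 * c1 + (2 * s + 2) * (1 + c1)) + (l + 2) * c1 +
      (4 * s + 4) * c1)) →
      ∃ (n : Fin m → ℕ) (d : ∀ i, Dumbbell s (n i) ↪g G), (∀ i, l ≤ n i) ∧ (∀ i x, d i x ∈ W) ∧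
        ∀ i j, i ≠ j → Anti G (d i) (d j) := by
  classical
  induction m with
  | zero =>
    intro W _
    exact ⟨fun i => i.elim0, fun i => i.elim0, fun i => i.elim0, fun i => i.elim0,
      fun i => i.elim0⟩
  | succ m ih =>
    intro W hW
    obtain ⟨K, hK⟩ : ∃ K, K = m * (c0 + (4 * c1 + (2 * s + 2) * (1 + c1)) + (l + 2) * c1 +
      (4 * s + 4) * c1) := ⟨_, rfl⟩
    obtain ⟨C, a1, a2, a3, a4⟩ := comp_col hW
    obtain ⟨n0, hn0, D, hD, R, hR, hDB, hRk, hx⟩ := dumr (s := s) (k := K) hG h0 h1 l a2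
      (fun h => a3 (h.mono le_rfl (le_of_eq (by
        rw [hK]
        ring))))
    obtain ⟨d0, hd0⟩ := hDB.emb
    rw [hK] at hRk
    obtain ⟨n, d, e1, e2, e3⟩ := ih R hRk
    refine ⟨Fin.cons n0 n, fun i => Fin.cases (motive := fun i =>
      Dumbbell s ((Fin.cons n0 n : Fin (m + 1) → ℕ) i) ↪g G) d0 d i, ?_, ?_, ?_⟩
    · intro i
      refine Fin.cases ?_ (fun j => ?_) i
      · exact hn0
      · exact e1 j
    · intro i
      refine Fin.cases ?_ (fun j => ?_) i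
      · intro x
        exact a1 (hD (hd0 x))
      · intro x
        exact a1 (hR (e2 j x))
    · intro i j
      refine Fin.cases ?_ (fun i' => ?_) i
      · refine Fin.cases ?_ (fun j' => ?_) j
        · intro h
          exact absurd rfl h
        · intro _ x y
          obtain ⟨b1, b2⟩ := hx _ (e2 j' y) _ (hd0 x)
          exact ⟨b1.symm, b2⟩
      · refine Fin.cases ?_ (fun j' => ?_) j
        · intro _ x y
          obtain ⟨b1, b2⟩ := hx _ (e2 i' x) _ (hd0 y)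
          exact ⟨b1, fun h => b2 h.symm⟩
        · intro h
          exact e3 i' j' (fun h' => h (by rw [h']))

/-- MAIN THEOREM -/
theorem main (w s l m : ℕ) : ∃ c : ℕ, ∀ {V : Type} [Finite V] (G : SimpleGraph V),
    ¬ Whl.HasWheel G → G.CliqueFree (w + 1) →
    (¬ ∃ (n : Fin m → ℕ) (d : ∀ i, Dumbbell s (n i) ↪g G), (∀ i, l ≤ n i) ∧
      ∀ i j, i ≠ j → Anti G (d i) (d j)) → G.Colorable c := by
  obtain ⟨c0, h0⟩ := hb_of w (2 * s + 2)
  obtain ⟨c1, h1⟩ := nbr_of w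
  refine ⟨m * (c0 + (4 * c1 + (2 * s + 2) * (1 + c1)) + (l + 2) * c1 + (4 * s + 4) * c1), ?_⟩
  intro V _ G hG hw hno
  apply Col.colorable
  by_contra hc
  obtain ⟨n, d, b1, _, b3⟩ := confm (s := s) hG (h0 G hG hw) (h1 G hG hw) l m _ hc
  exact hno ⟨n, d, b1, b3⟩

end Wdd
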